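import Pool.Agent.H664.EX.Stm2
import Pool.Graph.R_pool_sql_team_seeded_3997aac3.Q98.EG.FLD

/-!
Project EX (helper664), JOB DOM: varieties with dominant projection to `ℂ^n`.
-/

set_option autoImplicit false

namespace Pool.Agent.H553.EX

open MvPolynomial Pool.Agent.Q72.EG Pool.Agent.W333.ECV Pool.Agent.H664.EX

/-- independent elements of the right number in a field generated by the coordinates -/
theorem alg_of_basis {n : ℕ} {E : Type} [Field E] [Algebra ℂ E] {x : Fin n → E}
    (hx : AlgebraicIndependent ℂ x) (h1 : Algebra.trdeg ℂ E ≤ n) (g : E) :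
    Al (Set.range x) g := by
  have h3 : IsTranscendenceBasis ℂ x :=
    hx.isTranscendenceBasis_of_trdeg_le_of_finite (by simpa using h1)
  exact h3.isAlgebraic_field.isAlgebraic g

theorem dom (h : Pool.Agent.H664.EX.S_bm) : Pool.Agent.H664.EX.S_dom := by
  classical
  intro n I V hV hdim hind0
  obtain ⟨hI, hVeq, hne⟩ := hV
  obtain ⟨E, iE, aE, ξ, hξ, hgen⟩ := exists_field I hI
  set x : Fin n → E := fun i => ξ (Sum.inl i) with hx
  set y : Fin n → E := fun i => ξ (Sum.inr i) with hy
  have hxy : Sum.elim x y = ξ := by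
    funext i
    rcases i with i | i <;> rfl
  have hVmem : ∀ p : Fin n ⊕ Fin n → ℂ, p ∈ V ↔
      (∀ f ∈ I, eval p f = 0) ∧ ∀ j : Fin n, p (Sum.inr j) ≠ 0 := by
    intro p; rw [hVeq]; rfl
  obtain ⟨p0, hp0⟩ := hne
  have hPV : ∀ f, f ∈ I ↔ ∀ p ∈ V, eval p f = 0 := by
    intro f
    constructor
    · intro hf p hp
      exact ((hVmem p).mp hp).1 f hf
    · intro hf
      refine nullst I hI (∏ i : Fin n, X (Sum.inr i)) ?_ f ?_
      · intro hg
        have := ((hVmem p0).mp hp0).1 _ hg
        rw [map_prod, Finset.prod_eq_zero_iff] at this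
        obtain ⟨i, -, hi⟩ := this
        rw [eval_X] at hi
        exact ((hVmem p0).mp hp0).2 i hi
      · intro p hp hg
        apply hf
        rw [hVmem]
        refine ⟨hp, fun j hj => hg ?_⟩
        rw [map_prod]
        apply Finset.prod_eq_zero (Finset.mem_univ j)
        rw [eval_X]; exact hj
  have ha : ∀ f, aeval (Sum.elim x y) f = 0 ↔ ∀ p ∈ V, eval p f = 0 := by
    intro f
    rw [hxy]
    exact (hξ f).trans (hPV f)
  have hyn : ∀ l, y l ≠ 0 := by
    intro l h
    have h1 := (ha (X (Sum.inr l))).mp (by rw [aeval_X]; exact h) p0 hp0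
    rw [eval_X] at h1
    exact ((hVmem p0).mp hp0).2 l h1
  have htop : IntermediateField.adjoin ℂ (Set.range (Sum.elim x y)) = ⊤ := by
    rw [eq_top_iff]
    intro u _
    have hmem : ∀ f : MvPolynomial (Fin n ⊕ Fin n) ℂ,
        aeval ξ f ∈ IntermediateField.adjoin ℂ (Set.range (Sum.elim x y)) := by
      intro f
      rw [hxy]
      induction f using MvPolynomial.induction_on with
      | C a => rw [aeval_C]; exact IntermediateField.algebraMap_mem _ _
      | add p q hp hq => rw [map_add]; exact add_mem hp hq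
      | mul_X p i hp =>
        rw [map_mul, aeval_X]
        exact mul_mem hp (IntermediateField.subset_adjoin _ _ ⟨i, rfl⟩)
    obtain ⟨f, g, hg, hu⟩ := hgen u
    rw [eq_div_of_mul_eq hg hu]
    exact div_mem (hmem f) (hmem g)
  have hind : ∀ J : Finset (Fin n ⊕ Fin n),
      AlgebraicIndependent ℂ (fun j : J => Sum.elim x y j) → IndepV V J := by
    intro J h f hfv hf
    rw [← ha] at hf
    rw [algebraicIndependent_iff] at h
    obtain ⟨g, hg⟩ := exists_rename_eq_of_vars_subset_range f (Subtype.val : J → Fin n ⊕ Fin n)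
      Subtype.val_injective (by
        rw [Subtype.range_coe]
        exact_mod_cast hfv)
    have h1 : g = 0 := by
      apply h
      rw [← hg, aeval_rename] at hf
      exact hf
    rw [← hg, h1, map_zero]
  have hEn : Algebra.trdeg ℂ E ≤ n :=
    Pool.Agent.Q98.EG.trdeg_le_of_dep (Sum.elim x y) htop n fun J hJ h => hdim.2 J hJ (hind J h)
  have hxi : AlgebraicIndependent ℂ x := by
    rw [algebraicIndependent_iff]
    intro f hf
    have h1 : rename (Sum.inl : Fin n → Fin n ⊕ Fin n) f = 0 := by
      apply hind0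
      · intro k hk
        obtain ⟨b, -, rfl⟩ := Finset.mem_image.mp (vars_rename Sum.inl f hk)
        exact Finset.mem_image.mpr ⟨b, Finset.mem_univ _, rfl⟩
      · rw [← ha, aeval_rename, Sum.elim_comp_inl]
        exact hf
    exact rename_injective _ Sum.inl_injective (by rw [h1, map_zero])
  obtain ⟨z, q, hzq⟩ := h n E x y ∅ hxi (fun i => alg_of_basis hxi hEn (y i)) hyn
    (fun k hk => absurd hk (Finset.notMem_empty k))
  refine ⟨z, (hVmem _).mpr ⟨fun f hf => ?_, fun j => Complex.exp_ne_zero _⟩⟩
  have h2 : aeval (Sum.elim x y) f = 0 := by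
    rw [hxy, hξ]
    exact hf
  have h3 := hzq (rename Sum.inl f) (by rw [aeval_rename, Sum.elim_comp_inl]; exact h2)
  rw [eval_rename, Sum.elim_comp_inl] at h3
  exact h3

end Pool.Agent.H553.EX
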